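import Pool.Agent.Q18.Gal3

/-!
The threshold for the classification of the permutation groups that are not Galois closed over
`n - d` elements: `f(d) = 2 d + 1` for every `d ≥ 1`.
-/

namespace Pool.Agent.Results.MP_1328b3_al.Threshold

open Equiv Finset Pool.Agent.Q18.Gal

/-- The Galois closure of `G` over a `k`-element set: the permutations under which every function
`k^n → k` that is invariant under all elements of `G` is invariant. -/
def galoisClosure (n k : ℕ) (G : Subgroup (Perm (Fin n))) : Set (Perm (Fin n)) :=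
  {σ | ∀ f : (Fin n → Fin k) → Fin k,
    (∀ g ∈ G, ∀ a : Fin n → Fin k, f (fun i => a (g i)) = f a) →
      ∀ a : Fin n → Fin k, f (fun i => a (σ i)) = f a}

/-- `G` is Galois closed over a `k`-element set. -/
def IsGaloisClosed (n k : ℕ) (G : Subgroup (Perm (Fin n))) : Prop :=
  galoisClosure n k G = (G : Set (Perm (Fin n)))

/-- the symmetric group on `B`, acting trivially outside `B` -/
def symOn {n : ℕ} (B : Finset (Fin n)) : Subgroup (Perm (Fin n)) where
  carrier := {σ | ∀ i ∉ B, σ i = i}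
  one_mem' := fun _ _ => rfl
  mul_mem' := by
    intro σ τ h1 h2 i hi
    rw [Perm.mul_apply, h2 i hi, h1 i hi]
  inv_mem' := by
    intro σ h i hi
    rw [Perm.inv_eq_iff_eq, h i hi]

/-- the alternating group on `B`, acting trivially outside `B` -/
def altOn {n : ℕ} (B : Finset (Fin n)) : Subgroup (Perm (Fin n)) :=
  symOn B ⊓ alternatingGroup (Fin n)

/-- `G` is a proper subgroup of `S_B × L` (for `L` a group acting trivially on `B`) whose
projections onto `S_B` and onto `L` are both surjective. -/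
def IsProperSubdirect {n : ℕ} (G : Subgroup (Perm (Fin n))) (B : Finset (Fin n))
    (L : Subgroup (Perm (Fin n))) : Prop :=
  G < symOn B ⊔ L ∧ (∀ s ∈ symOn B, ∃ l ∈ L, s * l ∈ G) ∧ (∀ l ∈ L, ∃ s ∈ symOn B, s * l ∈ G)

/-- The statement `T(n, d)`. -/
def T (n d : ℕ) : Prop :=
  ∀ G : Subgroup (Perm (Fin n)), ¬ IsGaloisClosed n (n - d) G ↔
    ∃ B : Finset (Fin n), Bᶜ.card < d ∧ ∃ L : Subgroup (Perm (Fin n)), L ≤ symOn Bᶜ ∧
      (G = altOn B ⊔ L ∨ IsProperSubdirect G B L)

theorem galoisClosure_eq {n k : ℕ} (hk : 2 ≤ k) (G : Subgroup (Perm (Fin n))) :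
    galoisClosure n k G = (clo k G : Set (Perm (Fin n))) := by
  classical
  ext σ
  constructor
  · intro h a
    by_contra hcon
    have h1 := h (fun x => if ∃ g ∈ G, x = fun i => a (g i) then ⟨1, by omega⟩
      else ⟨0, by omega⟩) (by
        intro g hg x
        have h2 : (∃ g' ∈ G, (fun i => x (g i)) = fun i => a (g' i)) ↔
            ∃ g' ∈ G, x = fun i => a (g' i) := by
          constructor
          · rintro ⟨g', hg', he⟩
            refine ⟨g' * g⁻¹, G.mul_mem hg' (G.inv_mem hg), ?_⟩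
            funext i
            have h3 : x (g (g⁻¹ i)) = a (g' (g⁻¹ i)) := congrFun he (g⁻¹ i)
            have h4 : g (g⁻¹ i) = i := by simp
            rw [h4] at h3
            rw [h3]
            rfl
          · rintro ⟨g', hg', rfl⟩
            exact ⟨g' * g, G.mul_mem hg' hg, rfl⟩
        simp only [h2]) a
    rw [if_neg hcon, if_pos ⟨1, G.one_mem, rfl⟩] at h1
    simp at h1
  · intro h f hf a
    obtain ⟨g, hg, he⟩ := h a
    rw [he]
    exact hf g hg a

theorem not_closed_iff {n k : ℕ} (hk : 2 ≤ k) (G : Subgroup (Perm (Fin n))) :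
    ¬ IsGaloisClosed n k G ↔ ∃ h ∈ clo k G, h ∉ G := by
  unfold IsGaloisClosed
  rw [galoisClosure_eq hk]
  constructor
  · intro h
    by_contra hcon
    push Not at hcon
    apply h
    ext σ
    exact ⟨fun h1 => hcon σ h1, fun h1 => le_clo k G h1⟩
  · rintro ⟨h, hh, hG⟩ he
    have : h ∈ (clo k G : Set (Perm (Fin n))) := hh
    rw [he] at this
    exact hG this

theorem mem_symOn {n : ℕ} {B : Finset (Fin n)} {σ : Perm (Fin n)} :
    σ ∈ symOn B ↔ ∀ i ∉ B, σ i = i := Iff.rfl

theorem mem_altOn {n : ℕ} {B : Finset (Fin n)} {σ : Perm (Fin n)} :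
    σ ∈ altOn B ↔ (∀ i ∉ B, σ i = i) ∧ Perm.sign σ = 1 := Iff.rfl

theorem symOn_apply_mem {n : ℕ} {B : Finset (Fin n)} {σ : Perm (Fin n)} (h : σ ∈ symOn B)
    (i : Fin n) : σ i ∈ B ↔ i ∈ B := by
  constructor
  · intro h1
    by_contra hcon
    rw [h i hcon] at h1
    exact hcon h1
  · intro h1
    by_contra hcon
    have h2 := σ.injective (h _ hcon)
    rw [h2] at hcon
    exact hcon h1

theorem commute_of {n : ℕ} {B : Finset (Fin n)} {s l : Perm (Fin n)} (hs : s ∈ symOn B)
    (hl : l ∈ symOn Bᶜ) : Commute s l := by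
  apply Perm.Disjoint.commute
  intro i
  by_cases hi : i ∈ B
  · right
    exact hl i (by simp [hi])
  · left
    exact hs i hi

theorem swap_mem_symOn {n : ℕ} {B : Finset (Fin n)} {x y : Fin n} (hx : x ∈ B) (hy : y ∈ B) :
    swap x y ∈ symOn B := by
  intro i hi
  apply swap_apply_of_ne_of_ne
  · rintro rfl; exact hi hx
  · rintro rfl; exact hi hy

/-- decomposition of a permutation preserving `B` -/
theorem exists_decomp {n : ℕ} {B : Finset (Fin n)} {g : Perm (Fin n)} (h : ∀ i, g i ∈ B ↔ i ∈ B) :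
    ∃ s ∈ symOn B, ∃ l ∈ symOn Bᶜ, g = s * l := by
  classical
  set s : Perm (Fin n) := Perm.ofSubtype (g.subtypePerm (p := fun i => i ∈ B) h) with hs
  have h1 : s ∈ symOn B := by
    intro i hi
    rw [hs, Perm.ofSubtype_apply_of_not_mem _ hi]
  refine ⟨s, h1, s⁻¹ * g, ?_, by group⟩
  intro i hi
  have hi' : i ∈ B := by simpa using hi
  rw [Perm.mul_apply, Perm.inv_eq_iff_eq, hs, Perm.ofSubtype_apply_of_mem _ hi']
  rfl

/-- the classification direction -/
theorem forward {n d : ℕ} (hd : 1 ≤ d) (hn : 2 * d + 1 ≤ n) {G : Subgroup (Perm (Fin n))}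
    (hG : ¬ IsGaloisClosed n (n - d) G) :
    ∃ B : Finset (Fin n), Bᶜ.card < d ∧ ∃ L : Subgroup (Perm (Fin n)), L ≤ symOn Bᶜ ∧
      (G = altOn B ⊔ L ∨ IsProperSubdirect G B L) := by
  rw [not_closed_iff (by omega)] at hG
  obtain ⟨h, hh, hhG⟩ := hG
  obtain ⟨B, hB, hinv, heven, t, htG, ht⟩ := structure_thm (d := d) (by omega) hn hh hhG
  let L : Subgroup (Perm (Fin n)) :=
    { carrier := {l | l ∈ symOn Bᶜ ∧ ∃ s ∈ symOn B, s * l ∈ G}
      one_mem' := ⟨(symOn Bᶜ).one_mem, 1, (symOn B).one_mem, by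
        rw [one_mul]; exact G.one_mem⟩
      mul_mem' := by
        rintro l l' ⟨hl, s, hs, h1⟩ ⟨hl', s', hs', h2⟩
        refine ⟨(symOn Bᶜ).mul_mem hl hl', s * s', (symOn B).mul_mem hs hs', ?_⟩
        have h3 := G.mul_mem h1 h2
        have h4 := commute_of hs' hl
        have h5 : s * l * (s' * l') = s * s' * (l * l') := by
          calc s * l * (s' * l') = s * (l * s') * l' := by group
            _ = s * (s' * l) * l' := by rw [h4.eq]
            _ = _ := by group
        rwa [h5] at h3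
      inv_mem' := by
        rintro l ⟨hl, s, hs, h1⟩
        refine ⟨(symOn Bᶜ).inv_mem hl, s⁻¹, (symOn B).inv_mem hs, ?_⟩
        have h3 := G.inv_mem h1
        have h4 := commute_of hs hl
        rw [h4.eq, mul_inv_rev] at h3
        exact h3 }
  have hmemL : ∀ l, l ∈ L ↔ l ∈ symOn Bᶜ ∧ ∃ s ∈ symOn B, s * l ∈ G := fun l => Iff.rfl
  refine ⟨B, hB, L, fun l hl => hl.1, ?_⟩
  by_cases hodd : ∀ s ∈ symOn B, ∀ l ∈ symOn Bᶜ, s * l ∈ G → Perm.sign s = 1
  · left
    apply le_antisymm
    · intro g hg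
      obtain ⟨s, hs, l, hl, rfl⟩ := exists_decomp (hinv g hg)
      apply Subgroup.mul_mem
      · exact Subgroup.mem_sup_left (mem_altOn.2 ⟨hs, hodd s hs l hl hg⟩)
      · exact Subgroup.mem_sup_right ((hmemL l).2 ⟨hl, s, hs, hg⟩)
    · rw [sup_le_iff]
      constructor
      · intro s hs
        rw [mem_altOn] at hs
        exact heven s hs.1 hs.2
      · rintro l ⟨hl, s, hs, hsl⟩
        have h1 := heven s hs (hodd s hs l hl hsl)
        have h2 := G.mul_mem (G.inv_mem h1) hsl
        rwa [inv_mul_cancel_left] at h2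
  · right
    push Not at hodd
    obtain ⟨s0, hs0, l0, hl0, h0, hsign⟩ := hodd
    have hsign' : Perm.sign s0 = -1 := (Int.units_eq_one_or _).resolve_left hsign
    refine ⟨?_, ?_, ?_⟩
    · rw [lt_iff_le_and_ne]
      constructor
      · intro g hg
        obtain ⟨s, hs, l, hl, rfl⟩ := exists_decomp (hinv g hg)
        apply Subgroup.mul_mem
        · exact Subgroup.mem_sup_left hs
        · exact Subgroup.mem_sup_right ((hmemL l).2 ⟨hl, s, hs, hg⟩)
      · intro he
        apply htG
        rw [he]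
        exact Subgroup.mem_sup_left ht
    · intro s hs
      rcases Int.units_eq_one_or (Perm.sign s) with h1 | h1
      · exact ⟨1, L.one_mem, by rw [mul_one]; exact heven s hs h1⟩
      · refine ⟨l0, (hmemL l0).2 ⟨hl0, s0, hs0, h0⟩, ?_⟩
        have h2 : s * s0⁻¹ ∈ G := by
          apply heven _ ((symOn B).mul_mem hs ((symOn B).inv_mem hs0))
          rw [map_mul, Perm.sign_inv, h1, hsign']
          norm_num
        have h3 := G.mul_mem h2 h0
        have h4 : s * s0⁻¹ * (s0 * l0) = s * l0 := by group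
        rwa [h4] at h3
    · rintro l ⟨_, h1⟩
      exact h1

/-- transpositions on `B` lie in the closure -/
theorem swap_mem_clo {n k : ℕ} {G : Subgroup (Perm (Fin n))} {B : Finset (Fin n)}
    (hB : k < B.card) (heven : ∀ σ ∈ symOn B, Perm.sign σ = 1 → σ ∈ G) {x y : Fin n}
    (hx : x ∈ B) (hy : y ∈ B) (hxy : x ≠ y) : swap x y ∈ clo k G := by
  intro a
  obtain ⟨x', hx', y', hy', hne, hcol⟩ := Finset.exists_ne_map_eq_of_card_lt_of_maps_to
    (s := B) (t := (univ : Finset (Fin k))) (f := a) (by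
      rw [card_univ, Fintype.card_fin]; exact hB) (fun _ _ => mem_univ _)
  refine ⟨swap x' y' * swap x y, heven _ ((symOn B).mul_mem (swap_mem_symOn hx' hy')
    (swap_mem_symOn hx hy)) ?_, ?_⟩
  · rw [map_mul, Perm.sign_swap hne, Perm.sign_swap hxy]
    norm_num
  · funext i
    rw [Perm.mul_apply]
    set j := swap x y i
    by_cases h1 : j = x'
    · rw [h1, swap_apply_left, hcol]
    by_cases h2 : j = y'
    · rw [h2, swap_apply_right, hcol]
    rw [swap_apply_of_ne_of_ne h1 h2]

/-- three-cycles from a nontrivial element whose conjugates lie in `G` -/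
theorem exists_three {n : ℕ} {G : Subgroup (Perm (Fin n))} {B : Finset (Fin n)}
    (hB : 5 ≤ B.card) (hconj : ∀ σ ∈ G, σ ∈ symOn B → ∀ s ∈ symOn B, s * σ * s⁻¹ ∈ G)
    {σ : Perm (Fin n)} (hσ : σ ∈ G) (hσB : σ ∈ symOn B) (h1 : σ ≠ 1) :
    ∃ x ∈ B, ∃ y ∈ B, ∃ z ∈ B, x ≠ y ∧ y ≠ z ∧ x ≠ z ∧ cyc x y z ∈ G := by
  have hcomm : ∀ σ ∈ G, σ ∈ symOn B → ∀ i ∈ B, ∀ j ∈ B,
      swap (σ i) (σ j) * swap i j ∈ G := by
    intro σ hσ hσB i hi j hj
    have h2 := hconj _ (G.inv_mem hσ) ((symOn B).inv_mem hσB) (swap i j) (swap_mem_symOn hi hj)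
    have h3 := G.mul_mem hσ h2
    have h4 : σ * (swap i j * σ⁻¹ * (swap i j)⁻¹) = swap (σ i) (σ j) * swap i j := by
      rw [← conj_swap, swap_inv]
      group
    rwa [h4] at h3
  have caseA : ∀ σ ∈ G, σ ∈ symOn B → ∀ i ∈ B, ∀ j ∈ B, σ i ≠ i → σ j = j →
      ∃ x ∈ B, ∃ y ∈ B, ∃ z ∈ B, x ≠ y ∧ y ≠ z ∧ x ≠ z ∧ cyc x y z ∈ G := by
    intro σ hσ hσB i hi j hj hmi hfj
    have h2 := hcomm σ hσ hσB i hi j hj
    rw [hfj, swap_comm i j] at h2
    refine ⟨σ i, (symOn_apply_mem hσB i).2 hi, j, hj, i, hi, ?_, ?_, hmi, h2⟩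
    · intro h
      rw [← hfj] at h
      have := σ.injective h
      rw [this] at hmi
      exact hmi hfj
    · rintro rfl
      exact hmi hfj
  obtain ⟨i, hi⟩ : ∃ i, σ i ≠ i := by
    by_contra hcon
    push Not at hcon
    exact h1 (Equiv.ext hcon)
  have hiB : i ∈ B := by
    by_contra hcon
    exact hi (hσB i hcon)
  have hσiB := (symOn_apply_mem hσB i).2 hiB
  have hσσiB := (symOn_apply_mem hσB (σ i)).2 hσiB
  by_cases hfix : ∃ j ∈ B, σ j = j
  · obtain ⟨j, hj, hfj⟩ := hfix
    exact caseA σ hσ hσB i hiB j hj hi hfj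
  push Not at hfix
  by_cases h2 : σ (σ i) = i
  · -- find `j` outside `{i, σ i}`
    obtain ⟨j, hj, hj2⟩ := Finset.exists_mem_notMem_of_card_lt_card
      (s := ({i, σ i} : Finset (Fin n))) (t := B) (by
        have := Finset.card_le_two (a := i) (b := σ i)
        omega)
    simp only [mem_insert, mem_singleton, not_or] at hj2
    have h3 := hcomm σ hσ hσB i hiB j hj
    obtain ⟨m, hm, hm2⟩ := Finset.exists_mem_notMem_of_card_lt_card
      (s := ({i, σ i, j, σ j} : Finset (Fin n))) (t := B) (by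
        have := Finset.card_le_four (a := i) (b := σ i) (c := j) (d := σ j)
        omega)
    simp only [mem_insert, mem_singleton, not_or] at hm2
    have hτ : swap (σ i) (σ j) * swap i j ∈ symOn B :=
      (symOn B).mul_mem (swap_mem_symOn hσiB ((symOn_apply_mem hσB j).2 hj))
        (swap_mem_symOn hiB hj)
    refine caseA _ h3 hτ i hiB m hm ?_ ?_
    · rw [Perm.mul_apply, swap_apply_left, swap_apply_of_ne_of_ne hj2.2 (hfix j hj).symm]
      exact hj2.1
    · rw [Perm.mul_apply, swap_apply_of_ne_of_ne hm2.1 hm2.2.2.1,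
        swap_apply_of_ne_of_ne hm2.2.1 hm2.2.2.2]
  · have h3 := hcomm σ hσ hσB i hiB (σ i) hσiB
    rw [swap_comm (σ i), swap_comm i] at h3
    exact ⟨σ (σ i), hσσiB, σ i, hσiB, i, hiB, hfix _ hσiB, hi, h2, h3⟩

/-- conjugates of one three-cycle give all three-cycles -/
theorem all_three {n : ℕ} {G : Subgroup (Perm (Fin n))} {B : Finset (Fin n)}
    (hconj : ∀ σ ∈ G, σ ∈ symOn B → ∀ s ∈ symOn B, s * σ * s⁻¹ ∈ G)
    {x y z : Fin n} (hx : x ∈ B) (hy : y ∈ B) (hz : z ∈ B) (hxy : x ≠ y) (hyz : y ≠ z)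
    (hxz : x ≠ z) (h : cyc x y z ∈ G) :
    ∀ x' ∈ B, ∀ y' ∈ B, ∀ z' ∈ B, x' ≠ y' → y' ≠ z' → x' ≠ z' → cyc x' y' z' ∈ G := by
  have hstep : ∀ x ∈ B, ∀ y ∈ B, ∀ z ∈ B, cyc x y z ∈ G → ∀ p ∈ B, ∀ q ∈ B,
      cyc (swap p q x) (swap p q y) (swap p q z) ∈ G := by
    intro x hx y hy z hz h p hp q hq
    rw [← conj_cyc]
    exact hconj _ h ((symOn B).mul_mem (swap_mem_symOn hx hy) (swap_mem_symOn hy hz)) _
      (swap_mem_symOn hp hq)
  have hmem : ∀ p ∈ B, ∀ q ∈ B, ∀ x ∈ B, swap p q x ∈ B := fun p hp q hq x hx =>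
    (symOn_apply_mem (swap_mem_symOn hp hq) x).2 hx
  intro x' hx' y' hy' z' hz' hxy' hyz' hxz'
  have h1 := hstep x hx y hy z hz h x hx x' hx'
  rw [swap_apply_left] at h1
  set y1 := swap x x' y with hy1
  set z1 := swap x x' z with hz1
  have hy1B : y1 ∈ B := hmem _ hx _ hx' _ hy
  have hz1B : z1 ∈ B := hmem _ hx _ hx' _ hz
  have n1 : x' ≠ y1 := by
    intro h2
    apply hxy
    apply (swap x x').injective
    rw [swap_apply_left, ← hy1]
    exact h2
  have n2 : x' ≠ z1 := by
    intro h2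
    apply hxz
    apply (swap x x').injective
    rw [swap_apply_left, ← hz1]
    exact h2
  have n3 : y1 ≠ z1 := fun h2 => hyz ((swap x x').injective h2)
  have h2 := hstep x' hx' y1 hy1B z1 hz1B h1 y1 hy1B y' hy'
  rw [swap_apply_left, swap_apply_of_ne_of_ne n1 hxy'] at h2
  set z2 := swap y1 y' z1 with hz2
  have hz2B : z2 ∈ B := hmem _ hy1B _ hy' _ hz1B
  have n4 : x' ≠ z2 := by
    intro h3
    apply n2
    apply (swap y1 y').injective
    rw [swap_apply_of_ne_of_ne n1 hxy', ← hz2]
    exact h3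
  have n5 : y' ≠ z2 := by
    intro h3
    apply n3
    apply (swap y1 y').injective
    rw [swap_apply_left, ← hz2]
    exact h3
  have h3 := hstep x' hx' y' hy' z2 hz2B h2 z2 hz2B z' hz'
  rw [swap_apply_left, swap_apply_of_ne_of_ne n4 hxz', swap_apply_of_ne_of_ne n5 hyz'] at h3
  exact h3

theorem card_symOn {n : ℕ} (B : Finset (Fin n)) : Nat.card (symOn B) = B.card.factorial := by
  classical
  have e : symOn B ≃ Perm {i // i ∈ B} :=
    (Perm.subtypeEquivSubtypePerm (fun i => i ∈ B)).symm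
  rw [Nat.card_congr e, Nat.card_eq_fintype_card, Fintype.card_perm, Fintype.card_coe]

theorem mem_sup_decomp {n : ℕ} {B : Finset (Fin n)} {A L : Subgroup (Perm (Fin n))}
    (hA : A ≤ symOn B) (hL : L ≤ symOn Bᶜ) {g : Perm (Fin n)} (hg : g ∈ A ⊔ L) :
    ∃ s ∈ A, ∃ l ∈ L, g = s * l := by
  let K : Subgroup (Perm (Fin n)) :=
    { carrier := {g | ∃ s ∈ A, ∃ l ∈ L, g = s * l}
      one_mem' := ⟨1, A.one_mem, 1, L.one_mem, (one_mul 1).symm⟩
      mul_mem' := by
        rintro g g' ⟨s, hs, l, hl, rfl⟩ ⟨s', hs', l', hl', rfl⟩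
        refine ⟨s * s', A.mul_mem hs hs', l * l', L.mul_mem hl hl', ?_⟩
        have h4 := commute_of (hA hs') (hL hl)
        calc s * l * (s' * l') = s * (l * s') * l' := by group
          _ = s * (s' * l) * l' := by rw [h4.eq]
          _ = _ := by group
      inv_mem' := by
        rintro g ⟨s, hs, l, hl, rfl⟩
        refine ⟨s⁻¹, A.inv_mem hs, l⁻¹, L.inv_mem hl, ?_⟩
        have h4 := commute_of (hA hs) (hL hl)
        rw [h4.eq, mul_inv_rev] }
  have h1 : A ⊔ L ≤ K := sup_le (fun s hs => ⟨s, hs, 1, L.one_mem, (mul_one s).symm⟩)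
    (fun l hl => ⟨1, A.one_mem, l, hl, (one_mul l).symm⟩)
  exact h1 hg

theorem eq_one_of_mem {n : ℕ} {B : Finset (Fin n)} {σ : Perm (Fin n)} (h : σ ∈ symOn B)
    (h' : σ ∈ symOn Bᶜ) : σ = 1 := by
  ext i
  by_cases hi : i ∈ B
  · rw [h' i (by simp [hi])]; rfl
  · rw [h i hi]; rfl

/-- the converse direction -/
theorem backward {n d : ℕ} (hd : 1 ≤ d) (hn : 2 * d + 1 ≤ n) {G : Subgroup (Perm (Fin n))}
    {B : Finset (Fin n)} (hB : Bᶜ.card < d) {L : Subgroup (Perm (Fin n))} (hL : L ≤ symOn Bᶜ)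
    (h : G = altOn B ⊔ L ∨ IsProperSubdirect G B L) : ¬ IsGaloisClosed n (n - d) G := by
  rw [not_closed_iff (by omega)]
  have hcomp := card_compl_add_card B
  rw [Fintype.card_fin] at hcomp
  have hBk : n - d < B.card := by omega
  obtain ⟨x, hx, y, hy, hxy⟩ := Finset.one_lt_card.1 (show 1 < B.card by omega)
  have hswap := swap_mem_symOn hx hy
  have hsign : Perm.sign (swap x y) = -1 := Perm.sign_swap hxy
  rcases h with h | ⟨hlt, hS, hL'⟩
  · refine ⟨swap x y, swap_mem_clo hBk ?_ hx hy hxy, ?_⟩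
    · intro σ hσ hs
      rw [h]
      exact Subgroup.mem_sup_left (mem_altOn.2 ⟨hσ, hs⟩)
    · intro hcon
      rw [h] at hcon
      obtain ⟨s, hs, l, hl, he⟩ := mem_sup_decomp (B := B) (A := altOn B) inf_le_left hL hcon
      rw [mem_altOn] at hs
      have h1 : l ∈ symOn B := by
        have h2 : l = s⁻¹ * swap x y := by rw [he]; group
        rw [h2]
        exact (symOn B).mul_mem ((symOn B).inv_mem hs.1) hswap
      have h2 := eq_one_of_mem h1 (hL hl)
      rw [h2, mul_one] at he
      rw [he, hs.2] at hsign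
      exact absurd hsign (by decide)
  · -- the subdirect case
    have hnot : ¬ symOn B ≤ G := by
      intro hle
      apply not_le_of_gt hlt
      rw [sup_le_iff]
      refine ⟨hle, ?_⟩
      intro l hl
      obtain ⟨s, hs, hsl⟩ := hL' l hl
      have h2 := G.mul_mem (G.inv_mem (hle hs)) hsl
      rwa [inv_mul_cancel_left] at h2
    have hB5 : 5 ≤ B.card := by
      by_contra hcon
      apply hnot
      intro s hs
      obtain ⟨l, hl, hsl⟩ := hS s hs
      have h1 : l = 1 := by
        ext i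
        by_cases hi : i ∈ B
        · rw [hL hl i (by simp [hi])]; rfl
        · have h2 : l i ∈ Bᶜ := (symOn_apply_mem (hL hl) i).2 (by simp [hi])
          have h3 : i ∈ Bᶜ := by simp [hi]
          have h4 := Finset.card_le_one.1 (show Bᶜ.card ≤ 1 by omega) _ h2 _ h3
          rw [h4]; rfl
      rw [h1, mul_one] at hsl
      exact hsl
    have hconj : ∀ σ ∈ G, σ ∈ symOn B → ∀ s ∈ symOn B, s * σ * s⁻¹ ∈ G := by
      intro σ hσ hσB s hs
      obtain ⟨l, hl, hsl⟩ := hS s hs
      have h1 := G.mul_mem (G.mul_mem hsl hσ) (G.inv_mem hsl)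
      have h2 := commute_of hσB (hL hl)
      have h3 : s * l * σ * (s * l)⁻¹ = s * σ * s⁻¹ := by
        calc s * l * σ * (s * l)⁻¹ = s * (l * σ) * l⁻¹ * s⁻¹ := by group
          _ = s * (σ * l) * l⁻¹ * s⁻¹ := by rw [h2.eq]
          _ = _ := by group
      rwa [h3] at h1
    have hne : ∃ σ ∈ G, σ ∈ symOn B ∧ σ ≠ 1 := by
      choose φ hφ hφG using hS
      let f : symOn B → symOn Bᶜ := fun s => ⟨φ s s.2, hL (hφ s s.2)⟩
      have hninj : ¬ Function.Injective f := by
        intro hinj
        have h1 := Nat.card_le_card_of_injective f hinj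
        rw [card_symOn, card_symOn] at h1
        have h2 : Bᶜ.card.factorial < B.card.factorial := by
          calc Bᶜ.card.factorial ≤ (B.card - 1).factorial :=
                Nat.factorial_le (by omega)
            _ < B.card.factorial := (Nat.factorial_lt (by omega)).2 (by omega)
        omega
      rw [Function.Injective] at hninj
      push Not at hninj
      obtain ⟨s, s', he, hss⟩ := hninj
      have he' : φ s s.2 = φ s' s'.2 := congrArg Subtype.val he
      refine ⟨(s : Perm (Fin n)) * (s' : Perm (Fin n))⁻¹, ?_,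
        (symOn B).mul_mem s.2 ((symOn B).inv_mem s'.2), ?_⟩
      · have h1 := G.mul_mem (hφG s s.2) (G.inv_mem (hφG s' s'.2))
        rw [he'] at h1
        have h2 : (s : Perm (Fin n)) * φ s' s'.2 * ((s' : Perm (Fin n)) * φ s' s'.2)⁻¹ =
            (s : Perm (Fin n)) * (s' : Perm (Fin n))⁻¹ := by group
        rwa [h2] at h1
      · intro h1
        apply hss
        apply Subtype.ext
        exact mul_inv_eq_one.1 h1
    obtain ⟨σ, hσ, hσB, hσ1⟩ := hne
    obtain ⟨x', hx', y', hy', z', hz', n1, n2, n3, hc⟩ := exists_three hB5 hconj hσ hσB hσ1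
    have hall := all_three hconj hx' hy' hz' n1 n2 n3 hc
    have heven : ∀ σ ∈ symOn B, Perm.sign σ = 1 → σ ∈ G := fun σ hσ hs =>
      even_mem hall hσ hs
    refine ⟨swap x y, swap_mem_clo hBk heven hx hy hxy, ?_⟩
    intro hcon
    apply hnot
    intro s hs
    rcases Int.units_eq_one_or (Perm.sign s) with h1 | h1
    · exact heven s hs h1
    · have h2 := heven (s * swap x y) ((symOn B).mul_mem hs hswap) (by
        rw [map_mul, h1, hsign]; norm_num)
      have h3 := G.mul_mem h2 (G.inv_mem hcon)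
      rwa [mul_inv_cancel_right] at h3

/-- the exceptional group of degree `2 d` -/
def exc (d : ℕ) : Subgroup (Perm (Fin (2 * d))) where
  carrier := {σ | ((∀ i, (σ i : ℕ) < d ↔ (i : ℕ) < d) ∧ Perm.sign σ = 1) ∨
    ((∀ i, (σ i : ℕ) < d ↔ ¬ (i : ℕ) < d) ∧ Perm.sign σ = (-1) ^ (d + 1))}
  one_mem' := Or.inl ⟨fun _ => Iff.rfl, map_one _⟩
  mul_mem' := by
    rintro σ τ (⟨h1, h2⟩ | ⟨h1, h2⟩) (⟨h3, h4⟩ | ⟨h3, h4⟩)
    · left
      refine ⟨fun i => ?_, by rw [map_mul, h2, h4, one_mul]⟩
      rw [Perm.mul_apply, h1, h3]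
    · right
      refine ⟨fun i => ?_, by rw [map_mul, h2, h4, one_mul]⟩
      rw [Perm.mul_apply, h1, h3]
    · right
      refine ⟨fun i => ?_, by rw [map_mul, h2, h4, mul_one]⟩
      rw [Perm.mul_apply, h1, h3]
    · left
      refine ⟨fun i => ?_, ?_⟩
      · rw [Perm.mul_apply, h1, h3, not_not]
      · rw [map_mul, h2, h4]
        rcases neg_one_pow_eq_or ℤˣ (d + 1) with h | h <;> rw [h] <;> norm_num
  inv_mem' := by
    rintro σ (⟨h1, h2⟩ | ⟨h1, h2⟩)
    · left
      refine ⟨fun i => ?_, by rw [Perm.sign_inv, h2]⟩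
      have h3 := h1 (σ⁻¹ i)
      have h4 : σ (σ⁻¹ i) = i := by simp
      rw [h4] at h3
      exact h3.symm
    · right
      refine ⟨fun i => ?_, by rw [Perm.sign_inv, h2]⟩
      have h3 := h1 (σ⁻¹ i)
      have h4 : σ (σ⁻¹ i) = i := by simp
      rw [h4] at h3
      tauto

theorem mem_exc {d : ℕ} {σ : Perm (Fin (2 * d))} : σ ∈ exc d ↔
    ((∀ i, (σ i : ℕ) < d ↔ (i : ℕ) < d) ∧ Perm.sign σ = 1) ∨
    ((∀ i, (σ i : ℕ) < d ↔ ¬ (i : ℕ) < d) ∧ Perm.sign σ = (-1) ^ (d + 1)) := Iff.rfl

theorem swap_block {d : ℕ} {i j : Fin (2 * d)} (hij : (i : ℕ) < d ↔ (j : ℕ) < d)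
    (x : Fin (2 * d)) : (swap i j x : ℕ) < d ↔ (x : ℕ) < d := by
  by_cases hxi : x = i
  · subst hxi
    rw [swap_apply_left]
    exact hij.symm
  by_cases hxj : x = j
  · subst hxj
    rw [swap_apply_right]
    exact hij
  rw [swap_apply_of_ne_of_ne hxi hxj]

/-- every colouring has a symmetry outside `exc d` preserving or exchanging the blocks -/
theorem exc_sym {d : ℕ} (a : Fin (2 * d) → Fin d) : ∃ w : Perm (Fin (2 * d)),
    (∀ i, a (w i) = a i) ∧ (((∀ i, (w i : ℕ) < d ↔ (i : ℕ) < d) ∧ Perm.sign w = -1) ∨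
    ((∀ i, (w i : ℕ) < d ↔ ¬ (i : ℕ) < d) ∧ Perm.sign w = (-1) ^ d)) := by
  classical
  by_cases h : ∃ i j : Fin (2 * d), i ≠ j ∧ ((i : ℕ) < d ↔ (j : ℕ) < d) ∧ a i = a j
  · obtain ⟨i, j, hne, hblock, hcol⟩ := h
    refine ⟨swap i j, ?_, Or.inl ⟨swap_block hblock, Perm.sign_swap hne⟩⟩
    intro x
    by_cases hxi : x = i
    · subst hxi
      rw [swap_apply_left, hcol]
    by_cases hxj : x = j
    · subst hxj
      rw [swap_apply_right, hcol]
    rw [swap_apply_of_ne_of_ne hxi hxj]
  · push Not at h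
    let f : Fin (2 * d) → Fin d × Bool := fun i => (a i, decide ((i : ℕ) < d))
    have hf : Function.Injective f := by
      intro i j hij
      by_contra hne
      have h1 : a i = a j := congrArg Prod.fst hij
      have h2 : decide ((i : ℕ) < d) = decide ((j : ℕ) < d) := congrArg Prod.snd hij
      exact h i j hne (decide_eq_decide.1 h2) h1
    have hb : Function.Bijective f := by
      rw [Fintype.bijective_iff_injective_and_card]
      refine ⟨hf, ?_⟩
      rw [Fintype.card_prod, Fintype.card_fin, Fintype.card_fin, Fintype.card_bool]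
      ring
    let E := Equiv.ofBijective f hb
    let ν : Perm (Fin d × Bool) := prodCongrRight (fun _ => swap false true)
    have hν : ∀ p, ν p = (p.1, !p.2) := by
      rintro ⟨c, b⟩
      cases b <;> rfl
    have hE : ∀ i, E i = (a i, decide ((i : ℕ) < d)) := fun _ => rfl
    have hw : ∀ i, E ((E.symm.permCongr ν) i) = (a i, !decide ((i : ℕ) < d)) := by
      intro i
      rw [Equiv.permCongr_apply, Equiv.apply_symm_apply, Equiv.symm_symm, hν, hE]
    refine ⟨E.symm.permCongr ν, ?_, Or.inr ⟨?_, ?_⟩⟩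
    · intro i
      have h1 := congrArg Prod.fst (hw i)
      rw [hE] at h1
      exact h1
    · intro i
      have h1 := congrArg Prod.snd (hw i)
      rw [hE] at h1
      simp only at h1
      by_cases h2 : (i : ℕ) < d
      · simp only [h2, decide_true, Bool.not_true, decide_eq_false_iff_not] at h1
        exact ⟨fun h3 => absurd h3 h1, fun h3 => absurd h2 h3⟩
      · simp only [h2, decide_false, Bool.not_false, decide_eq_true_eq] at h1
        exact ⟨fun _ => h2, fun _ => h1⟩
    · rw [Perm.sign_permCongr]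
      change Perm.sign (prodCongrRight fun _ : Fin d => (swap false true : Perm Bool)) = _
      rw [Perm.sign_prodCongrRight]
      simp

theorem not_T {d : ℕ} (hd : 2 ≤ d) : ¬ T (2 * d) d := by
  intro hT
  have hk : 2 * d - d = d := by omega
  have z0 : (0 : ℕ) < 2 * d := by omega
  have z1 : (1 : ℕ) < 2 * d := by omega
  have hne01 : (⟨0, z0⟩ : Fin (2 * d)) ≠ ⟨1, z1⟩ := by
    intro h
    simpa using congrArg Fin.val h
  have hcl : ¬ IsGaloisClosed (2 * d) (2 * d - d) (exc d) := by
    rw [not_closed_iff (by omega), hk]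
    refine ⟨swap ⟨0, z0⟩ ⟨1, z1⟩, ?_, ?_⟩
    · intro a
      obtain ⟨w, hw, hw'⟩ := exc_sym a
      refine ⟨w⁻¹ * swap ⟨0, z0⟩ ⟨1, z1⟩, ?_, ?_⟩
      · have hsw := swap_block (d := d) (i := ⟨0, z0⟩) (j := ⟨1, z1⟩) (by
          constructor <;> intro _ <;> simp only <;> omega)
        rw [mem_exc]
        rcases hw' with ⟨h1, h2⟩ | ⟨h1, h2⟩
        · left
          refine ⟨fun i => ?_, ?_⟩
          · have h3 := h1 (w⁻¹ (swap ⟨0, z0⟩ ⟨1, z1⟩ i))
            have h4 : w (w⁻¹ (swap ⟨0, z0⟩ ⟨1, z1⟩ i)) = swap ⟨0, z0⟩ ⟨1, z1⟩ i := by simp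
            rw [h4, hsw] at h3
            rw [Perm.mul_apply]
            exact h3.symm
          · rw [map_mul, Perm.sign_inv, h2, Perm.sign_swap hne01]
            norm_num
        · right
          refine ⟨fun i => ?_, ?_⟩
          · have h3 := h1 (w⁻¹ (swap ⟨0, z0⟩ ⟨1, z1⟩ i))
            have h4 : w (w⁻¹ (swap ⟨0, z0⟩ ⟨1, z1⟩ i)) = swap ⟨0, z0⟩ ⟨1, z1⟩ i := by simp
            rw [h4, hsw] at h3
            rw [Perm.mul_apply]
            tauto
          · rw [map_mul, Perm.sign_inv, h2, Perm.sign_swap hne01, pow_succ]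
      · funext i
        rw [Perm.mul_apply]
        have h3 := hw (w⁻¹ (swap ⟨0, z0⟩ ⟨1, z1⟩ i))
        have h4 : w (w⁻¹ (swap ⟨0, z0⟩ ⟨1, z1⟩ i)) = swap ⟨0, z0⟩ ⟨1, z1⟩ i := by simp
        rw [h4] at h3
        exact h3
    · intro h
      rw [mem_exc] at h
      rcases h with ⟨_, h2⟩ | ⟨h1, _⟩
      · rw [Perm.sign_swap hne01] at h2
        exact absurd h2 (by decide)
      · have h3 := h1 ⟨0, z0⟩
        rw [swap_apply_left] at h3
        simp only at h3
        omega
  obtain ⟨B, hB, L, hL, hform⟩ := (hT (exc d)).1 hcl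
  have hle : exc d ≤ symOn B ⊔ L := by
    rcases hform with h | h
    · rw [h]
      exact sup_le_sup_right inf_le_left _
    · exact h.1.le
  have hpres : ∀ g ∈ exc d, ∀ i, g i ∈ B ↔ i ∈ B := by
    intro g hg i
    obtain ⟨s, hs, l, hl, rfl⟩ := mem_sup_decomp le_rfl hL (hle hg)
    rw [Perm.mul_apply, symOn_apply_mem hs]
    have h1 := symOn_apply_mem (hL hl) i
    rw [mem_compl, mem_compl] at h1
    tauto
  have hcomp := card_compl_add_card B
  rw [Fintype.card_fin] at hcomp
  have hBuniv : B = univ := by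
    rw [Finset.eq_univ_iff_forall]
    intro j
    by_contra hj
    -- the block of `j` meets `B`
    obtain ⟨i, hi, hij⟩ : ∃ i ∈ B, ((i : ℕ) < d ↔ (j : ℕ) < d) := by
      by_contra hcon
      push Not at hcon
      have hsub : B ⊆ univ.filter (fun i : Fin (2 * d) => ¬ ((i : ℕ) < d ↔ (j : ℕ) < d)) := by
        intro i hi
        rw [mem_filter]
        refine ⟨mem_univ _, ?_⟩
        have := hcon i hi
        omega
      have h1 := card_le_card hsub
      have h2 : (univ.filter (fun i : Fin (2 * d) =>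
          ¬ ((i : ℕ) < d ↔ (j : ℕ) < d))).card ≤ d := by
        by_cases hjd : (j : ℕ) < d
        · have h3 : (univ.filter (fun i : Fin (2 * d) =>
              ¬ ((i : ℕ) < d ↔ (j : ℕ) < d))).card ≤ (Finset.range d).card := by
            refine Finset.card_le_card_of_injOn (fun i => (i : ℕ) - d) ?_ ?_
            · intro i hi
              rw [mem_coe, mem_filter] at hi
              rw [mem_coe, mem_range]
              have := i.2
              have h4 : ¬ (i : ℕ) < d := by tauto
              show (i : ℕ) - d < d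
              omega
            · intro i hi i' hi' he
              rw [mem_coe, mem_filter] at hi hi'
              have h4 : ¬ (i : ℕ) < d := by tauto
              have h5 : ¬ (i' : ℕ) < d := by tauto
              have h6 : (i : ℕ) - d = (i' : ℕ) - d := he
              apply Fin.ext
              omega
          rwa [card_range] at h3
        · have h3 : (univ.filter (fun i : Fin (2 * d) =>
              ¬ ((i : ℕ) < d ↔ (j : ℕ) < d))).card ≤ (Finset.range d).card := by
            refine Finset.card_le_card_of_injOn (fun i => (i : ℕ)) ?_ ?_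
            · intro i hi
              rw [mem_coe, mem_filter] at hi
              rw [mem_coe, mem_range]
              show (i : ℕ) < d
              tauto
            · intro i hi i' hi' he
              exact Fin.ext he
          rwa [card_range] at h3
      omega
    -- two points of the other block
    obtain ⟨p, q, hpq, hp, hq⟩ : ∃ p q : Fin (2 * d), p ≠ q ∧
        ¬ ((p : ℕ) < d ↔ (j : ℕ) < d) ∧ ¬ ((q : ℕ) < d ↔ (j : ℕ) < d) := by
      by_cases hjd : (j : ℕ) < d
      · refine ⟨⟨d, by omega⟩, ⟨d + 1, by omega⟩, ?_, ?_, ?_⟩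
        · intro h
          have := congrArg Fin.val h
          simp only at this
          omega
        · simp only
          intro h
          have := h.2 hjd
          omega
        · simp only
          intro h
          have := h.2 hjd
          omega
      · refine ⟨⟨0, z0⟩, ⟨1, z1⟩, hne01, ?_, ?_⟩
        · simp only
          intro h
          exact hjd (h.1 (by omega))
        · simp only
          intro h
          exact hjd (h.1 (by omega))
    have hne : i ≠ j := by rintro rfl; exact hj hi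
    have hg : swap i j * swap p q ∈ exc d := by
      rw [mem_exc]
      left
      refine ⟨fun x => ?_, ?_⟩
      · rw [Perm.mul_apply, swap_block hij, swap_block (by tauto)]
      · rw [map_mul, Perm.sign_swap hne, Perm.sign_swap hpq]
        norm_num
    have h1 := (hpres _ hg i).2 hi
    have hip : i ≠ p := by
      rintro rfl
      exact hp hij
    have hiq : i ≠ q := by
      rintro rfl
      exact hq hij
    rw [Perm.mul_apply, swap_apply_of_ne_of_ne hip hiq, swap_apply_left] at h1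
    exact hj h1
  subst hBuniv
  have hL1 : ∀ l ∈ L, l = 1 := by
    intro l hl
    ext i
    rw [hL hl i (by simp)]
    rfl
  rcases hform with h | h
  · -- the group contains a three-cycle breaking the blocks
    have hzd : d < 2 * d := by omega
    have hc : cyc (⟨0, z0⟩ : Fin (2 * d)) ⟨1, z1⟩ ⟨d, hzd⟩ ∈ exc d := by
      rw [h]
      apply Subgroup.mem_sup_left
      rw [mem_altOn]
      refine ⟨fun i hi => absurd (mem_univ i) hi, ?_⟩
      unfold cyc
      rw [map_mul, Perm.sign_swap hne01, Perm.sign_swap]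
      · norm_num
      · intro h
        have := congrArg Fin.val h
        simp only at this
        omega
    have e1 : cyc (⟨0, z0⟩ : Fin (2 * d)) ⟨1, z1⟩ ⟨d, hzd⟩ ⟨0, z0⟩ = ⟨1, z1⟩ := by
      apply cyc_fst hne01
      intro h
      have := congrArg Fin.val h
      simp only at this
      omega
    have e2 : cyc (⟨0, z0⟩ : Fin (2 * d)) ⟨1, z1⟩ ⟨d, hzd⟩ ⟨1, z1⟩ = ⟨d, hzd⟩ := by
      apply cyc_snd
      · intro h
        have := congrArg Fin.val h
        simp only at this
        omega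
      · intro h
        have := congrArg Fin.val h
        simp only at this
        omega
    rw [mem_exc] at hc
    rcases hc with ⟨h1, _⟩ | ⟨h1, _⟩
    · have h2 := h1 ⟨1, z1⟩
      rw [e2] at h2
      simp only at h2
      omega
    · have h2 := h1 ⟨0, z0⟩
      rw [e1] at h2
      simp only at h2
      omega
  · have h1 : swap (⟨0, z0⟩ : Fin (2 * d)) ⟨1, z1⟩ ∈ exc d := by
      obtain ⟨l, hl, hsl⟩ := h.2.1 (swap (⟨0, z0⟩ : Fin (2 * d)) ⟨1, z1⟩)
        (fun i hi => absurd (mem_univ i) hi)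
      rw [hL1 l hl, mul_one] at hsl
      exact hsl
    rw [mem_exc] at h1
    rcases h1 with ⟨_, h2⟩ | ⟨h1, _⟩
    · rw [Perm.sign_swap hne01] at h2
      exact absurd h2 (by decide)
    · have h3 := h1 ⟨0, z0⟩
      rw [swap_apply_left] at h3
      simp only at h3
      omega

/-- **Theorem.** For every `d ≥ 1` the least `N ≥ d + 2` such that `T(n, d)` holds for every
`n ≥ N` is `2 d + 1`. -/
theorem result (d : ℕ) (hd : 1 ≤ d) :
    IsLeast {N : ℕ | d + 2 ≤ N ∧ ∀ n : ℕ, N ≤ n → T n d} (2 * d + 1) := by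
  constructor
  · refine ⟨by omega, ?_⟩
    intro n hn G
    constructor
    · exact forward hd hn
    · rintro ⟨B, hB, L, hL, h⟩
      exact backward hd hn hB hL h
  · rintro N ⟨h1, h2⟩
    by_contra hcon
    push Not at hcon
    exact not_T (by omega) (h2 (2 * d) (by omega))

end Pool.Agent.Results.MP_1328b3_al.Threshold
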